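import Mathlib
import Pool.Agent.W838.SR.Est

set_option autoImplicit false

/-!
# MP_d1aba8_pr, Q1: the answer is negative, and there is not even a pre-cutoff

The chains are shift registers: `4 u ^ 2 + 2 u` cells hold bits; at rate one all bits move to the
next cell, the last one is forgotten and a fresh bit enters the first cell, which is `false` with
probability `q`, where `q ^ (4 u ^ 2) = 3 / 4`.  All nonzero eigenvalues of minus the generator are
equal to `1`.  The zero state has stationary mass more than `1 / 2`, so that the median `τ` of the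
mixing times `τ_x` is the mixing time from the zero state, which lies between `u / 4` and `8 u`,
while it takes a time of order `u ^ 2` before the distance becomes small.
-/

namespace Pool.Agent.Results.MP_d1aba8_pr.ShiftRegister

open Filter Topology

noncomputable section

section defs

variable {V : Type} [Fintype V] [DecidableEq V]

/-- `Q` is the generator of a continuous-time Markov chain on `V`. -/
def IsGenerator (Q : Matrix V V ℝ) : Prop :=
  (∀ x y, x ≠ y → 0 ≤ Q x y) ∧ ∀ x, ∑ y, Q x y = 0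

/-- The chain with generator `Q` is irreducible. -/
def IsIrreducible (Q : Matrix V V ℝ) : Prop :=
  ∀ x y, Relation.ReflTransGen (fun a b => 0 < Q a b) x y

/-- `π` is a stationary distribution of the chain with generator `Q`. -/
def IsStationary (Q : Matrix V V ℝ) (π : V → ℝ) : Prop :=
  (∀ x, 0 ≤ π x) ∧ ∑ x, π x = 1 ∧ ∀ y, ∑ x, π x * Q x y = 0

/-- Law of `X_t` under `P_x`: the row `x` of the matrix exponential of `t Q`. -/
def law (Q : Matrix V V ℝ) (t : ℝ) (x y : V) : ℝ := NormedSpace.exp (t • Q) x y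

/-- Total variation distance `‖P_x(X_t ∈ ·) - π‖`. -/
def tvDist (Q : Matrix V V ℝ) (π : V → ℝ) (x : V) (t : ℝ) : ℝ :=
  (1 / 2 : ℝ) * ∑ y, |law Q t x y - π y|

/-- `τ_x = inf {t ≥ 0 : ‖P_x(X_t ∈ ·) - π‖ ≤ 1/4}`. -/
def tau (Q : Matrix V V ℝ) (π : V → ℝ) (x : V) : ℝ :=
  sInf {t : ℝ | 0 ≤ t ∧ tvDist Q π x t ≤ 1 / 4}

open Classical in
/-- `π`-probability of the set of states with the property `A`. -/
def prob (π : V → ℝ) (A : V → Prop) : ℝ := ∑ x, if A x then π x else 0

/-- `s` is a median of `τ_x` when `x` is drawn from `π`. -/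
def IsMedian (Q : Matrix V V ℝ) (π : V → ℝ) (s : ℝ) : Prop :=
  1 / 2 ≤ prob π (fun x => tau Q π x ≤ s) ∧ 1 / 2 ≤ prob π (fun x => s ≤ tau Q π x)

/-- Spectral gap: the smallest real part of a nonzero complex eigenvalue of `-Q`. -/
def gap (Q : Matrix V V ℝ) : ℝ :=
  sInf {r : ℝ | ∃ z ∈ spectrum ℂ (-(Q.map Complex.ofReal)), z ≠ 0 ∧ z.re = r}

/-- Relaxation time `τ₂ = 1 / λ`. -/
def trel (Q : Matrix V V ℝ) : ℝ := 1 / gap Q

end defs

open Pool.Agent.W838.SR

theorem path_of_pow {V : Type} [Fintype V] [DecidableEq V] {A : Matrix V V ℝ}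
    (hA : ∀ x y, 0 ≤ A x y) (k : ℕ) :
    ∀ x y, 0 < (A ^ k) x y → Relation.ReflTransGen (fun a b => 0 < A a b) x y := by
  have hAk : ∀ k x y, 0 ≤ (A ^ k) x y := by
    intro k
    induction k with
    | zero =>
      intro x y
      rw [pow_zero, Matrix.one_apply]
      split_ifs <;> norm_num
    | succ k ih =>
      intro x y
      rw [pow_succ, Matrix.mul_apply]
      exact Finset.sum_nonneg fun z _ => mul_nonneg (ih x z) (hA z y)
  induction k with
  | zero =>
    intro x y h
    rw [pow_zero, Matrix.one_apply] at h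
    by_cases hxy : x = y
    · subst hxy; exact Relation.ReflTransGen.refl
    · rw [if_neg hxy] at h; exact absurd h (lt_irrefl _)
  | succ k ih =>
    intro x y h
    rw [pow_succ, Matrix.mul_apply] at h
    obtain ⟨z, _, hz⟩ := Finset.exists_lt_of_sum_lt (s := Finset.univ) (f := fun _ : V => (0 : ℝ))
      (g := fun z => (A ^ k) x z * A z y) (by simpa using h)
    have h1 : 0 < (A ^ k) x z := by
      rcases (hAk k x z).lt_or_eq with h2 | h2
      · exact h2
      · simp only [← h2, zero_mul, lt_irrefl] at hz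
    have h3 : 0 < A z y := by
      rcases (hA z y).lt_or_eq with h2 | h2
      · exact h2
      · simp only [← h2, mul_zero, lt_irrefl] at hz
    exact (ih x z h1).tail h3

theorem P_nonneg {m : ℕ} {q : ℝ} (h0 : 0 ≤ q) (h1 : q ≤ 1) (x y : Fin (m + 1) → Bool) :
    0 ≤ P m q x y := by
  have := pow_nonneg' h0 h1 x y 1
  rwa [pow_one] at this

theorem isGenerator {m : ℕ} {q : ℝ} (h0 : 0 ≤ q) (h1 : q ≤ 1) : IsGenerator (P m q - 1) := by
  constructor
  · intro x y hxy
    rw [Matrix.sub_apply, Matrix.one_apply, if_neg hxy, sub_zero]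
    exact P_nonneg h0 h1 x y
  · intro x
    have h2 := pow_sum m q x 1
    rw [pow_one] at h2
    simp only [Matrix.sub_apply, Finset.sum_sub_distrib, h2, Matrix.one_apply, Finset.sum_ite_eq,
      Finset.mem_univ, if_true, sub_self]

theorem isIrreducible {m : ℕ} {q : ℝ} (h0 : 0 < q) (h1 : q < 1) : IsIrreducible (P m q - 1) := by
  intro x y
  have h2 := path_of_pow (fun x y => P_nonneg (m := m) h0.le h1.le x y) (m + 1) x y (by
    rw [pow_ge m q x y le_rfl]; exact pi_pos h0 h1 y)
  induction h2 with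
  | refl => exact Relation.ReflTransGen.refl
  | @tail b c _ h ih =>
    by_cases hbc : b = c
    · subst hbc; exact ih
    · refine ih.tail ?_
      rw [Matrix.sub_apply, Matrix.one_apply, if_neg hbc, sub_zero]
      exact h

theorem isStationary {m : ℕ} {q : ℝ} (h0 : 0 ≤ q) (h1 : q ≤ 1) :
    IsStationary (P m q - 1) (pi m q) := by
  refine ⟨pi_nonneg h0 h1, pi_sum m q, fun y => ?_⟩
  have h2 : (P m q ^ (m + 1) * P m q) (fun _ => false) y = pi m q y := by
    rw [← pow_succ, pow_ge m q _ y (by omega)]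
  rw [Matrix.mul_apply] at h2
  simp only [pow_ge m q _ _ le_rfl] at h2
  simp only [Matrix.sub_apply, mul_sub, Finset.sum_sub_distrib, h2, Matrix.one_apply, mul_ite,
    mul_one, mul_zero, Finset.sum_ite_eq', Finset.mem_univ, if_true, sub_self]

theorem spec_subset {m : ℕ} {q : ℝ} {z : ℂ}
    (hz : z ∈ spectrum ℂ (-((P m q - 1).map Complex.ofReal))) : z = 0 ∨ z = 1 := by
  set A : Matrix (Fin (m + 1) → Bool) (Fin (m + 1) → Bool) ℂ :=
    -((P m q - 1).map Complex.ofReal) with hA
  set B : Matrix (Fin (m + 1) → Bool) (Fin (m + 1) → Bool) ℂ := (P m q).map Complex.ofReal with hB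
  have hAB : A = 1 - B := by
    rw [hA, hB, Matrix.map_sub _ (fun a b => Complex.ofReal_sub a b)]
    rw [Matrix.map_one _ Complex.ofReal_zero Complex.ofReal_one]
    abel
  have hpow : ∀ k, B ^ k = (P m q ^ k).map Complex.ofReal := by
    intro k
    exact ((Complex.ofRealHom.mapMatrix (m := Fin (m + 1) → Bool)).map_pow (P m q) k).symm
  have hzero : Polynomial.aeval A ((1 - Polynomial.X) ^ (m + 1) * Polynomial.X : Polynomial ℂ) =
      0 := by
    simp only [map_mul, map_pow, map_sub, map_one, Polynomial.aeval_X]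
    rw [hAB, sub_sub_cancel, mul_sub, mul_one, ← pow_succ, hpow, hpow, sub_eq_zero]
    ext x y
    simp only [Matrix.map_apply, pow_ge m q x y le_rfl, pow_ge m q x y (Nat.le_succ _)]
  have h1 := spectrum.subset_polynomial_aeval A
    ((1 - Polynomial.X) ^ (m + 1) * Polynomial.X : Polynomial ℂ)
  have h2 := h1 ⟨z, hz, rfl⟩
  rw [hzero, spectrum.zero_eq, Set.mem_singleton_iff] at h2
  simp only [Polynomial.eval_mul, Polynomial.eval_pow, Polynomial.eval_sub, Polynomial.eval_one,
    Polynomial.eval_X] at h2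
  rcases mul_eq_zero.mp h2 with h3 | h3
  · right
    have := pow_eq_zero_iff (by omega : m + 1 ≠ 0) |>.mp h3
    linear_combination -this
  · left; exact h3

theorem one_mem_spec {m : ℕ} {q : ℝ} :
    (1 : ℂ) ∈ spectrum ℂ (-((P m q - 1).map Complex.ofReal)) := by
  rw [spectrum.mem_iff]
  intro hu
  have hAB : (algebraMap ℂ (Matrix (Fin (m + 1) → Bool) (Fin (m + 1) → Bool) ℂ)) 1 -
      -((P m q - 1).map Complex.ofReal) = (P m q).map Complex.ofReal := by
    rw [map_one, Matrix.map_sub _ (fun a b => Complex.ofReal_sub a b)]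
    rw [Matrix.map_one _ Complex.ofReal_zero Complex.ofReal_one]
    abel
  rw [hAB] at hu
  -- a vector in the kernel
  have hker : ((P m q).map Complex.ofReal).mulVec
      (fun y : Fin (m + 1) → Bool => (if y 0 = true then (1 : ℂ) else 0) - ((1 - q : ℝ) : ℂ)) = 0 := by
    ext x
    have h1 : ∀ c : Bool → ℝ, ∑ y, P m q x y * c (y 0) = ∑ b, w q b * c b := by
      intro c
      have h2 : ∀ y : Fin (m + 1) → Bool, P m q x y * c (y 0) =
          ∏ i : Fin (m + 1), (Fin.cons (fun b => w q b * c b)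
            (fun (j : Fin m) (b : Bool) => if b = x j.castSucc then (1 : ℝ) else 0) :
              Fin (m + 1) → Bool → ℝ) i (y i) := by
        intro y
        rw [Fin.prod_univ_succ, P]
        simp only [Fin.cons_zero, Fin.cons_succ]
        ring
      rw [Finset.sum_congr rfl (fun y _ => h2 y), sum_prod, Fin.prod_univ_succ]
      simp only [Fin.cons_zero, Fin.cons_succ]
      rw [Finset.prod_eq_one (fun i _ => by simp), mul_one]
    have h3 := h1 (fun b => (if b = true then (1 : ℝ) else 0) - (1 - q))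
    have h4 : ∑ b, w q b * ((if b = true then (1 : ℝ) else 0) - (1 - q)) = 0 := by
      simp [w]; ring
    rw [h4] at h3
    have h5 : ((∑ y, P m q x y * ((if y 0 = true then (1 : ℝ) else 0) - (1 - q)) : ℝ) : ℂ) = 0 := by
      rw [h3]; simp
    simp only [Matrix.mulVec, dotProduct, Matrix.map_apply, Pi.zero_apply]
    refine Eq.trans ?_ h5
    rw [Complex.ofReal_sum]
    apply Finset.sum_congr rfl
    intro y _
    rw [Complex.ofReal_mul]
    congr 1
    rw [Complex.ofReal_sub]
    split_ifs <;> simp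
  obtain ⟨U, hU⟩ := hu
  have h6 : (fun y : Fin (m + 1) → Bool =>
      (if y 0 = true then (1 : ℂ) else 0) - ((1 - q : ℝ) : ℂ)) = 0 := by
    have h7 : (U.inv * U.val).mulVec
        (fun y : Fin (m + 1) → Bool => (if y 0 = true then (1 : ℂ) else 0) - ((1 - q : ℝ) : ℂ)) =
        0 := by
      rw [hU, ← Matrix.mulVec_mulVec, hker, Matrix.mulVec_zero]
    rwa [U.inv_val, Matrix.one_mulVec] at h7
  have h8 : (1 : ℂ) - ((1 - q : ℝ) : ℂ) = 0 := by
    have := congrFun h6 (fun _ => true)
    simpa only [if_true, Pi.zero_apply] using this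
  have h9 : (0 : ℂ) - ((1 - q : ℝ) : ℂ) = 0 := by
    have := congrFun h6 (fun _ => false)
    simpa only [Bool.false_eq_true, if_false, Pi.zero_apply] using this
  have h10 : (1 : ℂ) = 0 := by linear_combination h8 - h9
  exact one_ne_zero h10

theorem trel_eq (m : ℕ) (q : ℝ) : trel (P m q - 1) = 1 := by
  have h : {r : ℝ | ∃ z ∈ spectrum ℂ (-((P m q - 1).map Complex.ofReal)), z ≠ 0 ∧ z.re = r} =
      {1} := by
    ext r
    simp only [Set.mem_ofPred_eq, Set.mem_singleton_iff]
    constructor
    · rintro ⟨z, hz, hz0, rfl⟩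
      rcases spec_subset hz with h | h
      · exact absurd h hz0
      · rw [h]; rfl
    · rintro rfl
      exact ⟨1, one_mem_spec, one_ne_zero, rfl⟩
  rw [trel, gap, h, csInf_singleton, div_one]

/-- the zero state -/
abbrev zst (m : ℕ) : Fin (m + 1) → Bool := fun _ => false

theorem tvDist_eq (u : ℕ) (t : ℝ) :
    tvDist (P (mm u) (qq u) - 1) (pi (mm u) (qq u)) (zst (mm u)) t = dd u t := rfl

theorem tau_bounds {u : ℕ} (hu : 200 ≤ u) :
    (u : ℝ) / 4 ≤ tau (P (mm u) (qq u) - 1) (pi (mm u) (qq u)) (zst (mm u)) ∧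
      tau (P (mm u) (qq u) - 1) (pi (mm u) (qq u)) (zst (mm u)) ≤ 8 * u := by
  constructor
  · apply le_csInf
    · exact ⟨8 * u, by positivity, by rw [tvDist_eq]; exact dd_up hu⟩
    · rintro t ⟨ht, hd⟩
      by_contra hcon
      push Not at hcon
      have := dd_low hu ht hcon.le
      rw [tvDist_eq] at hd
      linarith
  · apply csInf_le
    · exact ⟨0, fun t ht => ht.1⟩
    · exact ⟨by positivity, by rw [tvDist_eq]; exact dd_up hu⟩

theorem prob_ge {V : Type} [Fintype V] {π : V → ℝ} (hπ : ∀ x, 0 ≤ π x) {A : V → Prop} {x : V}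
    (hx : A x) : π x ≤ prob π A := by
  classical
  unfold prob
  have h := Finset.single_le_sum (f := fun x => if A x then π x else 0)
    (fun y _ => by split_ifs; exacts [hπ y, le_rfl]) (Finset.mem_univ x)
  rw [if_pos hx] at h
  convert h

theorem prob_le {V : Type} [Fintype V] {π : V → ℝ} (hπ : ∀ x, 0 ≤ π x) (h1 : ∑ x, π x = 1)
    {A : V → Prop} {x : V} (hx : ¬ A x) : prob π A ≤ 1 - π x := by
  classical
  unfold prob
  rw [← h1, le_sub_iff_add_le]
  have h2 : ∑ y, ((if A y then π y else 0) + (if y = x then π y else 0)) ≤ ∑ y, π y := by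
    apply Finset.sum_le_sum
    intro y _
    by_cases hy : y = x
    · subst hy; simp [hx]
    · simp only [hy, if_false, add_zero]; split_ifs; exacts [le_rfl, hπ y]
  rw [Finset.sum_add_distrib, Finset.sum_ite_eq' Finset.univ x, if_pos (Finset.mem_univ x)] at h2
  convert h2

/-- **Negative answer to Q1, with no pre-cutoff.**  There are finite irreducible continuous-time
chains with generators `Q n`, stationary laws `π n` and (unique) medians `τ n` such that all
nonzero eigenvalues of `-Q n` are equal to `1`, so that `τ₂ = 1`, `τ n / τ₂ → ∞`, and for every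
`b ≥ 0` and `ε ∈ (0, 1/4)`, for all large `n`, with `π n`-probability at least `1 / 2` the distance
to stationarity at time `b τ n` lies strictly between `ε` and `1 - ε`.  In particular both
convergence statements of Q1 fail for every `ε ∈ (0, 1/4)`. -/
theorem result :
    ∃ (V : ℕ → Type) (_ : ∀ n, Fintype (V n)) (_ : ∀ n, DecidableEq (V n))
      (Q : ∀ n, Matrix (V n) (V n) ℝ) (π : ∀ n, V n → ℝ) (τ : ℕ → ℝ),
      (∀ n, IsGenerator (Q n) ∧ IsIrreducible (Q n) ∧ IsStationary (Q n) (π n)) ∧
      (∀ n s, IsMedian (Q n) (π n) s ↔ s = τ n) ∧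
      (∀ n, ∀ z ∈ spectrum ℂ (-((Q n).map Complex.ofReal)), z = 0 ∨ z = 1) ∧
      (∀ n, trel (Q n) = 1) ∧
      Tendsto (fun n => τ n / trel (Q n)) atTop atTop ∧
      (∀ b : ℝ, 0 ≤ b → ∀ ε : ℝ, 0 < ε → ε < 1 / 4 → ∀ᶠ n in atTop,
        1 / 2 ≤ prob (π n) (fun x => ε < tvDist (Q n) (π n) x (b * τ n) ∧
          tvDist (Q n) (π n) x (b * τ n) < 1 - ε)) ∧
      (∀ ε : ℝ, 0 < ε → ε < 1 / 4 →
        ¬ Tendsto (fun n => prob (π n) (fun x => 1 - ε < tvDist (Q n) (π n) x ((1 - ε) * τ n)))
          atTop (𝓝 1) ∧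
        ¬ Tendsto (fun n => prob (π n) (fun x => tvDist (Q n) (π n) x ((1 + ε) * τ n) < ε))
          atTop (𝓝 1)) := by
  have hpos : ∀ n : ℕ, 0 < n + 200 := fun n => by omega
  have hst : ∀ n : ℕ, IsStationary (P (mm (n + 200)) (qq (n + 200)) - 1)
      (pi (mm (n + 200)) (qq (n + 200))) :=
    fun n => isStationary (qq_pos _).le (qq_lt (hpos n)).le
  have hτ : ∀ n : ℕ, (((n + 200 : ℕ) : ℝ) / 4 ≤ tau (P (mm (n + 200)) (qq (n + 200)) - 1)
      (pi (mm (n + 200)) (qq (n + 200))) (zst (mm (n + 200)))) ∧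
      tau (P (mm (n + 200)) (qq (n + 200)) - 1)
      (pi (mm (n + 200)) (qq (n + 200))) (zst (mm (n + 200))) ≤ 8 * ((n + 200 : ℕ) : ℝ) :=
    fun n => tau_bounds (by omega)
  have hmain : ∀ b : ℝ, 0 ≤ b → ∀ ε : ℝ, 0 < ε → ε < 1 / 4 → ∀ᶠ n : ℕ in atTop,
      ε < tvDist (P (mm (n + 200)) (qq (n + 200)) - 1) (pi (mm (n + 200)) (qq (n + 200)))
        (zst (mm (n + 200))) (b * tau (P (mm (n + 200)) (qq (n + 200)) - 1)
          (pi (mm (n + 200)) (qq (n + 200))) (zst (mm (n + 200)))) ∧
      tvDist (P (mm (n + 200)) (qq (n + 200)) - 1) (pi (mm (n + 200)) (qq (n + 200)))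
        (zst (mm (n + 200))) (b * tau (P (mm (n + 200)) (qq (n + 200)) - 1)
          (pi (mm (n + 200)) (qq (n + 200))) (zst (mm (n + 200)))) < 1 - ε := by
    intro b hb ε _ hε'
    filter_upwards [dd_eventually hb hε'] with n hn
    have h0 : 0 ≤ b * tau (P (mm (n + 200)) (qq (n + 200)) - 1)
          (pi (mm (n + 200)) (qq (n + 200))) (zst (mm (n + 200))) := by
      apply mul_nonneg hb
      refine le_trans ?_ (hτ n).1
      positivity
    rw [tvDist_eq]
    refine ⟨hn _ h0 (mul_le_mul_of_nonneg_left (hτ n).2 hb), ?_⟩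
    have := dd_le (hpos n) h0
    linarith
  have hhalf : ∀ b : ℝ, 0 ≤ b → ∀ ε : ℝ, 0 < ε → ε < 1 / 4 → ∀ᶠ n : ℕ in atTop,
      9 / 16 ≤ prob (pi (mm (n + 200)) (qq (n + 200))) (fun x =>
      ε < tvDist (P (mm (n + 200)) (qq (n + 200)) - 1) (pi (mm (n + 200)) (qq (n + 200)))
        x (b * tau (P (mm (n + 200)) (qq (n + 200)) - 1)
          (pi (mm (n + 200)) (qq (n + 200))) (zst (mm (n + 200)))) ∧
      tvDist (P (mm (n + 200)) (qq (n + 200)) - 1) (pi (mm (n + 200)) (qq (n + 200)))
        x (b * tau (P (mm (n + 200)) (qq (n + 200)) - 1)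
          (pi (mm (n + 200)) (qq (n + 200))) (zst (mm (n + 200)))) < 1 - ε) := by
    intro b hb ε hε hε'
    filter_upwards [hmain b hb ε hε hε'] with n hn
    exact (pi_zero_ge (hpos n)).trans (prob_ge (hst n).1 hn)
  refine ⟨fun n => Fin (mm (n + 200) + 1) → Bool, fun n => inferInstance, fun n => inferInstance,
    fun n => P (mm (n + 200)) (qq (n + 200)) - 1, fun n => pi (mm (n + 200)) (qq (n + 200)),
    fun n => tau (P (mm (n + 200)) (qq (n + 200)) - 1) (pi (mm (n + 200)) (qq (n + 200)))
      (zst (mm (n + 200))), ?_, ?_, ?_, ?_, ?_, ?_, ?_⟩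
  · intro n
    exact ⟨isGenerator (qq_pos _).le (qq_lt (hpos n)).le, isIrreducible (qq_pos _) (qq_lt (hpos n)),
      hst n⟩
  · intro n s
    have h9 := pi_zero_ge (hpos n)
    constructor
    · rintro ⟨h1, h2⟩
      apply le_antisymm
      · by_contra hcon
        have h3 := prob_le (hst n).1 (hst n).2.1 (A := fun x => s ≤ tau _ _ x)
          (x := zst (mm (n + 200))) hcon
        linarith
      · by_contra hcon
        have h3 := prob_le (hst n).1 (hst n).2.1 (A := fun x => tau _ _ x ≤ s)
          (x := zst (mm (n + 200))) hcon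
        linarith
    · rintro rfl
      constructor
      · have := prob_ge (hst n).1 (A := fun x => tau (P (mm (n + 200)) (qq (n + 200)) - 1)
          (pi (mm (n + 200)) (qq (n + 200))) x ≤ tau (P (mm (n + 200)) (qq (n + 200)) - 1)
          (pi (mm (n + 200)) (qq (n + 200))) (zst (mm (n + 200)))) (x := zst (mm (n + 200))) le_rfl
        linarith
      · have := prob_ge (hst n).1 (A := fun x => tau (P (mm (n + 200)) (qq (n + 200)) - 1)
          (pi (mm (n + 200)) (qq (n + 200))) (zst (mm (n + 200))) ≤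
          tau (P (mm (n + 200)) (qq (n + 200)) - 1)
          (pi (mm (n + 200)) (qq (n + 200))) x) (x := zst (mm (n + 200))) le_rfl
        linarith
  · intro n z hz
    exact spec_subset hz
  · intro n
    exact trel_eq _ _
  · simp only [trel_eq, div_one]
    have h1 : Tendsto (fun n : ℕ => ((n + 200 : ℕ) : ℝ) / 4) atTop atTop :=
      (tendsto_natCast_atTop_atTop.comp (tendsto_add_atTop_nat 200)).atTop_div_const (by norm_num)
    exact tendsto_atTop_mono (fun n => (hτ n).1) h1
  · intro b hb ε hε hε'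
    filter_upwards [hhalf b hb ε hε hε'] with n hn
    linarith
  · intro ε hε hε'
    constructor
    · intro hT
      have h1 := hmain (1 - ε) (by linarith) ε hε hε'
      have h2 : ∀ᶠ n : ℕ in atTop, prob (pi (mm (n + 200)) (qq (n + 200))) (fun x => 1 - ε <
          tvDist (P (mm (n + 200)) (qq (n + 200)) - 1) (pi (mm (n + 200)) (qq (n + 200))) x
          ((1 - ε) * tau (P (mm (n + 200)) (qq (n + 200)) - 1)
          (pi (mm (n + 200)) (qq (n + 200))) (zst (mm (n + 200))))) ≤ 7 / 16 := by
        filter_upwards [h1] with n hn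
        have h3 := prob_le (hst n).1 (hst n).2.1 (A := fun x => 1 - ε <
          tvDist (P (mm (n + 200)) (qq (n + 200)) - 1) (pi (mm (n + 200)) (qq (n + 200))) x
          ((1 - ε) * tau (P (mm (n + 200)) (qq (n + 200)) - 1)
          (pi (mm (n + 200)) (qq (n + 200))) (zst (mm (n + 200)))))
          (x := zst (mm (n + 200))) (not_lt.mpr hn.2.le)
        have := pi_zero_ge (hpos n)
        linarith
      have := le_of_tendsto hT h2
      norm_num at this
    · intro hT
      have h1 := hmain (1 + ε) (by linarith) ε hε hε'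
      have h2 : ∀ᶠ n : ℕ in atTop, prob (pi (mm (n + 200)) (qq (n + 200))) (fun x =>
          tvDist (P (mm (n + 200)) (qq (n + 200)) - 1) (pi (mm (n + 200)) (qq (n + 200))) x
          ((1 + ε) * tau (P (mm (n + 200)) (qq (n + 200)) - 1)
          (pi (mm (n + 200)) (qq (n + 200))) (zst (mm (n + 200)))) < ε) ≤ 7 / 16 := by
        filter_upwards [h1] with n hn
        have h3 := prob_le (hst n).1 (hst n).2.1 (A := fun x =>
          tvDist (P (mm (n + 200)) (qq (n + 200)) - 1) (pi (mm (n + 200)) (qq (n + 200))) x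
          ((1 + ε) * tau (P (mm (n + 200)) (qq (n + 200)) - 1)
          (pi (mm (n + 200)) (qq (n + 200))) (zst (mm (n + 200)))) < ε)
          (x := zst (mm (n + 200))) (not_lt.mpr hn.1.le)
        have := pi_zero_ge (hpos n)
        linarith
      have := le_of_tendsto hT h2
      norm_num at this

end

end Pool.Agent.Results.MP_d1aba8_pr.ShiftRegister
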